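import Pool.Agent.Q333.Exit.Tau

/-!
# Normalized exit times of Brownian motion from boxes: the cube is extremal

Let `B` be a standard Brownian motion in `ℝ^d`, `d ≥ 2`, started at the origin, `R_a` the open box
`{|x_k| < a_k}` and `Q_d = (-1, 1)^d` the cube. For every `p > 0`

`λ₁(R_a)^p E[τ_{R_a}^p] ≤ λ₁(Q_d)^p E[τ_{Q_d}^p] < ∞`,

with equality if and only if `a_1 = … = a_d`. More is true: `λ₁(R_a) τ_{R_a}` is stochastically
smaller than `λ₁(Q_d) τ_{Q_d}`, and all the inequalities between the tail probabilities are strict if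
`R_a` is not a cube.

Proof. The law of the exit time of one coordinate is found from the martingales
`exp(μ²t/2) cos(μ B_t)` (`Exit/BM1`, `BM2`, `BM3`):
`P(τ_{(-a, a)} > t) = S(t/a²)` with `S(t) = ∑ (-1)^n 4/(π(2n+1)) exp(-(2n+1)²π²t/8)`. By Jacobi's
identity `-S'(t) = (π/2) exp(-π²t/8) ∏ (1 - exp(-nπ²t))³`, and all factors are log-concave, so `-S'`
and its tail integral `S` are strictly log-concave (`Exit/Ser`). Jensen's inequality gives
`∏ S(t/a_k²) ≤ S(t (∑ a_k⁻²)/d)^d`, and a change of variables gives the result (`Exit/Mom`, `Tau`).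
-/

set_option autoImplicit false

namespace Pool.Agent.Results.MP_1e851b_pr.BoxesVersusCube

open MeasureTheory ProbabilityTheory
open scoped NNReal ENNReal
open Pool.Agent.Q333.Exit (Box exitTime IsBM lam)

/-- **Among all boxes the cube has the largest normalized exit time moments.** -/
theorem result {d : ℕ} (hd : 2 ≤ d) {Ω : Type*} [MeasurableSpace Ω] (P : Measure Ω)
    [IsProbabilityMeasure P] (B : Fin d → ℝ≥0 → Ω → ℝ) (hB : IsBM B P)
    (a : Fin d → ℝ) (ha : ∀ k, 0 < a k) :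
    (∀ p : ℝ, 0 < p →
      ENNReal.ofReal (lam a ^ p) * ∫⁻ ω, exitTime B (Box a) ω ^ p ∂P ≤
        ENNReal.ofReal (lam (fun _ : Fin d => (1 : ℝ)) ^ p) *
          ∫⁻ ω, exitTime B (Box fun _ => 1) ω ^ p ∂P ∧
      (ENNReal.ofReal (lam a ^ p) * ∫⁻ ω, exitTime B (Box a) ω ^ p ∂P =
        ENNReal.ofReal (lam (fun _ : Fin d => (1 : ℝ)) ^ p) *
          ∫⁻ ω, exitTime B (Box fun _ => 1) ω ^ p ∂P ↔ ∀ j k, a j = a k) ∧
      ∫⁻ ω, exitTime B (Box fun _ => 1) ω ^ p ∂P < ∞) ∧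
    (∀ t : ℝ, 0 < t →
      P {ω | ENNReal.ofReal t < ENNReal.ofReal (lam a) * exitTime B (Box a) ω} ≤
        P {ω | ENNReal.ofReal t < ENNReal.ofReal (lam (fun _ : Fin d => (1 : ℝ))) *
          exitTime B (Box fun _ => 1) ω} ∧
      (P {ω | ENNReal.ofReal t < ENNReal.ofReal (lam a) * exitTime B (Box a) ω} =
        P {ω | ENNReal.ofReal t < ENNReal.ofReal (lam (fun _ : Fin d => (1 : ℝ))) *
          exitTime B (Box fun _ => 1) ω} ↔ ∀ j k, a j = a k)) := by
  have hd0 : 0 < d := by omega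
  have hd' : (0 : ℝ) < d := by exact_mod_cast hd0
  have hb := Pool.Agent.Q333.Exit.inv_pos' ha
  have h1 : ∀ k : Fin d, 0 < (fun _ : Fin d => (1 : ℝ)) k := fun _ => one_pos
  have hne : (Finset.univ : Finset (Fin d)).Nonempty := ⟨⟨0, hd0⟩, Finset.mem_univ _⟩
  have hs : 0 < ∑ k, (a k ^ 2)⁻¹ := Finset.sum_pos (fun k _ => hb k) hne
  have hlam : 0 < lam a := mul_pos (by positivity) hs
  have hl1 : lam (fun _ : Fin d => (1 : ℝ)) = Real.pi ^ 2 / 4 * d := by
    unfold lam
    simp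
  have hlam1 : 0 < lam (fun _ : Fin d => (1 : ℝ)) := by
    rw [hl1]
    positivity
  have hsq : ∀ {j k : Fin d}, (a j ^ 2)⁻¹ = (a k ^ 2)⁻¹ → a j = a k := by
    intro j k h
    have h2 : a j ^ 2 = a k ^ 2 := inv_injective h
    exact (pow_left_inj₀ (ha j).le (ha k).le two_ne_zero).1 h2
  have hcases : (∀ j k, (a j ^ 2)⁻¹ = (a k ^ 2)⁻¹) ↔ ∀ j k, a j = a k :=
    ⟨fun h j k => hsq (h j k), fun h j k => by rw [h j k]⟩
  have hone : (fun _ : Fin d => (((1 : ℝ)) ^ 2)⁻¹) = fun _ => 1 := by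
    funext _
    norm_num
  refine ⟨fun p hp => ?_, fun t ht => ?_⟩
  · have hM := Pool.Agent.Q333.Exit.moment hd0 hB ha hp
    have hM1 := Pool.Agent.Q333.Exit.moment hd0 hB h1 hp
    rw [hone] at hM1
    rw [hM, hM1]
    have hc : 0 < (Real.pi ^ 2 / 4) ^ p * p :=
      mul_pos (Real.rpow_pos_of_pos (by positivity) _) hp
    have e1 : ENNReal.ofReal (lam a ^ p) *
        ENNReal.ofReal (p * Pool.Agent.Q333.Exit.M (fun k => (a k ^ 2)⁻¹) p) =
        ENNReal.ofReal ((Real.pi ^ 2 / 4) ^ p * p *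
          ((∑ k, (a k ^ 2)⁻¹) ^ p * Pool.Agent.Q333.Exit.M (fun k => (a k ^ 2)⁻¹) p)) := by
      rw [← ENNReal.ofReal_mul (Real.rpow_pos_of_pos hlam _).le]
      congr 1
      unfold lam
      rw [Real.mul_rpow (by positivity) hs.le]
      ring
    have e2 : ENNReal.ofReal (lam (fun _ : Fin d => (1 : ℝ)) ^ p) *
        ENNReal.ofReal (p * Pool.Agent.Q333.Exit.M (fun _ : Fin d => 1) p) =
        ENNReal.ofReal ((Real.pi ^ 2 / 4) ^ p * p *
          ((d : ℝ) ^ p * Pool.Agent.Q333.Exit.M (fun _ : Fin d => 1) p)) := by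
      rw [← ENNReal.ofReal_mul (Real.rpow_pos_of_pos hlam1 _).le]
      congr 1
      rw [hl1, Real.mul_rpow (by positivity) hd'.le]
      ring
    rw [e1, e2]
    have hle := Pool.Agent.Q333.Exit.M_le hd0 hb hp
    refine ⟨ENNReal.ofReal_le_ofReal (mul_le_mul_of_nonneg_left hle hc.le), ?_,
      ENNReal.ofReal_lt_top⟩
    constructor
    · intro h
      by_contra hcon
      rw [← hcases] at hcon
      push Not at hcon
      have hlt := Pool.Agent.Q333.Exit.M_lt hd0 hb hcon hp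
      have h0 : 0 ≤ (∑ k, (a k ^ 2)⁻¹) ^ p *
          Pool.Agent.Q333.Exit.M (fun k => (a k ^ 2)⁻¹) p := by
        apply mul_nonneg (Real.rpow_pos_of_pos hs _).le
        apply setIntegral_nonneg measurableSet_Ioi
        intro t ht
        exact mul_nonneg (Real.rpow_pos_of_pos ht _).le (Pool.Agent.Q333.Exit.G_nonneg hb ht).le
      have h2 : ENNReal.ofReal ((Real.pi ^ 2 / 4) ^ p * p *
          ((∑ k, (a k ^ 2)⁻¹) ^ p * Pool.Agent.Q333.Exit.M (fun k => (a k ^ 2)⁻¹) p)) <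
          ENNReal.ofReal ((Real.pi ^ 2 / 4) ^ p * p *
          ((d : ℝ) ^ p * Pool.Agent.Q333.Exit.M (fun _ : Fin d => 1) p)) :=
        (ENNReal.ofReal_lt_ofReal_iff (mul_pos hc (h0.trans_lt hlt))).2
          (mul_lt_mul_of_pos_left hlt hc)
      exact absurd h h2.ne
    · intro h
      have heq := Pool.Agent.Q333.Exit.M_eq (p := p) hd0 hb (hcases.2 h)
      rw [heq]
  · have hset : ∀ (c : ℝ), 0 < c → ∀ x : ℝ≥0∞,
        ENNReal.ofReal t < ENNReal.ofReal c * x ↔ ENNReal.ofReal (t / c) < x := by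
      intro c hc x
      rw [ENNReal.ofReal_div_of_pos hc, ENNReal.div_lt_iff (Or.inl (by simpa using hc))
        (Or.inl ENNReal.ofReal_ne_top), mul_comm]
    have hp1 := Pool.Agent.Q333.Exit.prob_lt hB ha (t := t / lam a) (by positivity)
    have hp2 := Pool.Agent.Q333.Exit.prob_lt hB h1
      (t := t / lam (fun _ : Fin d => (1 : ℝ))) (by positivity)
    rw [hone] at hp2
    simp_rw [hset _ hlam, hset _ hlam1]
    rw [hp1, hp2]
    have e0 : (∑ k, (a k ^ 2)⁻¹) / d * (t / lam a) = t / lam (fun _ : Fin d => (1 : ℝ)) := by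
      rw [hl1]
      unfold lam
      obtain ⟨s, hsd⟩ : ∃ s, s = ∑ k, (a k ^ 2)⁻¹ := ⟨_, rfl⟩
      rw [← hsd] at hs ⊢
      have := Real.pi_ne_zero
      have h3 := hs.ne'
      have h4 := hd'.ne'
      field_simp
    have e1 : Pool.Agent.Q333.Exit.G (fun _ : Fin d => (1 : ℝ))
        (t / lam (fun _ : Fin d => (1 : ℝ))) =
        Pool.Agent.Q333.Exit.S (t / lam (fun _ : Fin d => (1 : ℝ))) ^ d := by
      unfold Pool.Agent.Q333.Exit.G
      simp
    have hta : 0 < t / lam a := by positivity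
    have hle := Pool.Agent.Q333.Exit.G_le hd0 hb hta
    rw [e0, ← e1] at hle
    refine ⟨ENNReal.ofReal_le_ofReal hle, ?_⟩
    constructor
    · intro h
      by_contra hcon
      rw [← hcases] at hcon
      push Not at hcon
      have hlt := Pool.Agent.Q333.Exit.G_lt hd0 hb hcon hta
      rw [e0, ← e1] at hlt
      have h2 := (ENNReal.ofReal_lt_ofReal_iff
        ((Pool.Agent.Q333.Exit.G_nonneg hb hta).trans hlt)).2 hlt
      exact absurd h h2.ne
    · intro h
      have hb' := hcases.2 h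
      congr 1
      rw [e1, ← e0]
      unfold Pool.Agent.Q333.Exit.G
      obtain ⟨c, hc⟩ : ∃ c, ∀ k, (a k ^ 2)⁻¹ = c :=
        ⟨(a ⟨0, hd0⟩ ^ 2)⁻¹, fun k => hb' k _⟩
      simp only [hc]
      simp only [Finset.prod_const, Finset.card_univ, Fintype.card_fin, Finset.sum_const,
        nsmul_eq_mul]
      congr 2
      field_simp

end Pool.Agent.Results.MP_1e851b_pr.BoxesVersusCube
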